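import Pool.Agent.E8helper40.PK.Limit

/-!
# Almost all tuples of points of packets have equidistributed Galois orbits
-/

set_option autoImplicit false

open Finset MeasureTheory Filter Topology
open scoped BoundedContinuousFunction ENNReal

namespace Pool.Agent.E8helper40.PK

open Pool.Agent.E8helper40.EQ Pool.Agent.E8helper40.AA

variable {G : Type} [Group G] {Γ : Subgroup G} {J : Type} [Fintype J] {W : J → Type}

theorem almost_all [∀ j, TopologicalSpace (W j)] [∀ j, PolishSpace (W j)]
    [∀ j, MeasurableSpace (W j)] [∀ j, BorelSpace (W j)] (P : ∀ j, SpecialPoints Γ (W j))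
    (m : ∀ j, ProbabilityMeasure (W j)) (c : ℕ) (Q : ℕ → ∀ j, Packet (P j))
    (hK : ∀ i j, ∀ z ∈ (Q i j).S, ((P j).K z).index ≠ 0 ∧ ((P j).K z).index ≤ c)
    (heq : ∀ j, CharacterEquidistributed (fun i => Q i j) (m j)) :
    ∃ E : ℕ → Set (∀ j, (P j).Z),
      Tendsto (fun i => ((tuples (Q i) ∩ E i).ncard : ℝ) / (tuples (Q i)).ncard)
        atTop (𝓝 0) ∧
      ∀ y : ℕ → ∀ j, (P j).Z, (∀ i, y i ∈ tuples (Q i)) → (∀ᶠ i in atTop, y i ∉ E i) →
        ∀ f : (∀ j, W j) →ᵇ ℝ, Tendsto (fun i => ∫ w, f w ∂(galoisMeasure P (y i))) atTop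
          (𝓝 (∫ w, f w ∂(Measure.pi fun j => (m j : Measure (W j))))) := by
  classical
  let _ : MetricSpace (ProbabilityMeasure (∀ j, W j)) := TopologicalSpace.metrizableSpaceMetric _
  let τ : (∀ j, (P j).Z) → ℝ := fun z => min 1 (dist (nu P z) (ProbabilityMeasure.pi m))
  have hτ0 : ∀ z, 0 ≤ τ z := fun z => le_min zero_le_one dist_nonneg
  have hτ1 : ∀ z, τ z ≤ 1 := fun z => min_le_left _ _
  let N : ℕ → ℝ := fun i => Fintype.card (∀ j, Pt (Q i) j)
  have hN : ∀ i, 0 < N i := fun i => Nat.cast_pos.2 Fintype.card_pos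
  let q : ℕ → ℝ := fun i => (N i)⁻¹ * ∑ y : ∀ j, Pt (Q i) j, τ (val (Q i) y)
  have hq0 : ∀ i, 0 ≤ q i := fun i =>
    mul_nonneg (inv_nonneg.2 (hN i).le) (sum_nonneg fun y _ => hτ0 _)
  have hq : Tendsto q atTop (𝓝 0) := by
    rw [Metric.tendsto_atTop']
    intro ε hε
    have hev := bad_nhds m c Q hK heq (Metric.ball (ProbabilityMeasure.pi m) (ε / 2))
      Metric.isOpen_ball (Metric.mem_ball_self (half_pos hε)) (η := ε / 4) (by positivity)
    obtain ⟨M, hM⟩ := eventually_atTop.1 hev
    refine ⟨M, fun i hi => ?_⟩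
    have h1 := hM i hi.le
    rw [Real.dist_eq, sub_zero, abs_of_nonneg (hq0 i)]
    have h2 : ∑ y : ∀ j, Pt (Q i) j, τ (val (Q i) y)
        ≤ ε / 4 * N i + ε / 2 * N i := by
      have h3 : ∀ y : ∀ j, Pt (Q i) j, τ (val (Q i) y)
          ≤ (if nu P (val (Q i) y) ∉ Metric.ball (ProbabilityMeasure.pi m) (ε / 2)
            then 1 else 0) + ε / 2 := by
        intro y
        by_cases h : nu P (val (Q i) y) ∈ Metric.ball (ProbabilityMeasure.pi m) (ε / 2)
        · rw [if_neg (not_not.2 h), zero_add]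
          exact (min_le_right _ _).trans (Metric.mem_ball.1 h).le
        · rw [if_pos h]
          linarith [hτ1 (val (Q i) y)]
      refine (sum_le_sum fun y _ => h3 y).trans ?_
      rw [sum_add_distrib, sum_const, card_univ, nsmul_eq_mul, sum_boole]
      have h4 : (Fintype.card (∀ j, Pt (Q i) j) : ℝ) * (ε / 2) = ε / 2 * N i := mul_comm _ _
      rw [h4]
      gcongr
    calc q i ≤ (N i)⁻¹ * (ε / 4 * N i + ε / 2 * N i) := by
          exact mul_le_mul_of_nonneg_left h2 (inv_nonneg.2 (hN i).le)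
      _ = 3 / 4 * ε := by
          have := (hN i).ne'
          field_simp
          ring
      _ < ε := by linarith
  have hsq : Tendsto (fun i => Real.sqrt (q i)) atTop (𝓝 0) := by
    have := (Real.continuous_sqrt.tendsto 0).comp hq
    rwa [Real.sqrt_zero] at this
  let E : ℕ → Set (∀ j, (P j).Z) := fun i => {z | Real.sqrt (q i) < τ z}
  refine ⟨E, ?_, ?_⟩
  · refine squeeze_zero (fun i => by positivity) (fun i => ?_) hsq
    have h1 : tuples (Q i) ∩ E i = val (Q i) ''
        ((univ.filter fun y : ∀ j, Pt (Q i) j => Real.sqrt (q i) < τ (val (Q i) y) :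
          Finset _) : Set _) := by
      rw [← range_val]
      ext z
      constructor
      · rintro ⟨⟨y, rfl⟩, hy⟩
        exact ⟨y, mem_coe.2 (mem_filter.2 ⟨mem_univ _, hy⟩), rfl⟩
      · rintro ⟨y, hy, rfl⟩
        exact ⟨⟨y, rfl⟩, (mem_filter.1 (mem_coe.1 hy)).2⟩
    have h2 : ((tuples (Q i)).ncard : ℝ) = N i := by
      rw [← range_val, ← Set.image_univ, Set.ncard_image_of_injective _ (val_injective (Q i)),
        Set.ncard_univ, Nat.card_eq_fintype_card]
    rw [h1, Set.ncard_image_of_injective _ (val_injective (Q i)), Set.ncard_coe_finset, h2,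
      div_le_iff₀ (hN i)]
    set S := univ.filter fun y : ∀ j, Pt (Q i) j => Real.sqrt (q i) < τ (val (Q i) y)
    have h3 : (S.card : ℝ) * Real.sqrt (q i) ≤ ∑ y : ∀ j, Pt (Q i) j, τ (val (Q i) y) := by
      calc (S.card : ℝ) * Real.sqrt (q i) = ∑ _y ∈ S, Real.sqrt (q i) := by simp
        _ ≤ ∑ y ∈ S, τ (val (Q i) y) := sum_le_sum fun y hy => (mem_filter.1 hy).2.le
        _ ≤ _ := sum_le_sum_of_subset_of_nonneg (subset_univ _) fun y _ _ => hτ0 _
    have h4 : ∑ y : ∀ j, Pt (Q i) j, τ (val (Q i) y) = q i * N i := by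
      simp only [q]
      have := (hN i).ne'
      field_simp
    rcases (hq0 i).eq_or_lt with h0 | h0
    · have hS : S = ∅ := by
        rw [Finset.filter_eq_empty_iff]
        intro y _
        rw [← h0, Real.sqrt_zero, not_lt]
        rw [← h0, zero_mul] at h4
        exact le_of_eq ((sum_eq_zero_iff_of_nonneg fun y _ => hτ0 _).1 h4 y (mem_univ y))
      rw [hS, card_empty]
      push_cast
      exact mul_nonneg (Real.sqrt_nonneg _) (hN i).le
    · have h5 : 0 < Real.sqrt (q i) := Real.sqrt_pos.2 h0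
      have h6 : (S.card : ℝ) * Real.sqrt (q i) ≤ (Real.sqrt (q i) * N i) * Real.sqrt (q i) := by
        refine h3.trans (le_of_eq ?_)
        rw [h4]
        nth_rw 1 [← Real.mul_self_sqrt (hq0 i)]
        ring
      exact le_of_mul_le_mul_right h6 h5
  · intro y _ hyE f
    have h1 : Tendsto (fun i => τ (y i)) atTop (𝓝 0) := by
      refine squeeze_zero' (Eventually.of_forall fun i => hτ0 _) ?_ hsq
      filter_upwards [hyE] with i hi
      exact not_lt.1 hi
    have h2 : Tendsto (fun i => nu P (y i)) atTop (𝓝 (ProbabilityMeasure.pi m)) := by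
      rw [tendsto_iff_dist_tendsto_zero]
      refine h1.congr' ?_
      filter_upwards [h1.eventually (gt_mem_nhds one_pos)] with i hi
      rcases min_choice 1 (dist (nu P (y i)) (ProbabilityMeasure.pi m)) with h | h
      · change min 1 (dist (nu P (y i)) (ProbabilityMeasure.pi m)) < 1 at hi
        rw [h] at hi
        exact absurd hi (lt_irrefl _)
      · exact h
    have h3 := (ProbabilityMeasure.tendsto_iff_forall_integral_tendsto.1 h2) f
    rw [ProbabilityMeasure.toMeasure_pi] at h3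
    exact h3

end Pool.Agent.E8helper40.PK
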