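import Pool.Agent.E8helper40.PK.Moment

/-!
# The measures on the Galois orbits
-/

set_option autoImplicit false

open Finset MeasureTheory
open scoped BoundedContinuousFunction

namespace Pool.Agent.E8helper40.PK

open Pool.Agent.E8helper40.EQ Pool.Agent.E8helper40.AA

variable {G : Type} [Group G] {Γ : Subgroup G} {J : Type} {W : J → Type}
  {P : ∀ j, SpecialPoints Γ (W j)} (Q : ∀ j, Packet (P j))

lemma integral_galois [Fintype J] [Fintype (Phi Q).range] [∀ j, TopologicalSpace (W j)]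
    [∀ j, SecondCountableTopology (W j)] [∀ j, MeasurableSpace (W j)] [∀ j, BorelSpace (W j)]
    (y : ∀ j, Pt Q j) (f : (∀ j, W j) →ᵇ ℝ) :
    ∫ w, f w ∂(galoisMeasure P (val Q y)) = (Fintype.card (Phi Q).range : ℝ)⁻¹ *
      ∑ θ : (Phi Q).range,
        f fun j => (P j).pt ((((θ : ∀ j, Equiv.Perm (Pt Q j)) • y) j : Pt Q j) : (P j).Z) := by
  classical
  rw [galoisMeasure, avg_eq (fun θ : (Phi Q).range =>
    val Q ((θ : ∀ j, Equiv.Perm (Pt Q j)) • y))
    ((MulAction.stabilizer (∀ j, Equiv.Perm (Pt Q j)) y).subgroupOf (Phi Q).range)]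
  · rfl
  · intro s t
    rw [(val_injective Q).eq_iff, Subgroup.mem_subgroupOf, MulAction.mem_stabilizer_iff,
      Subgroup.coe_mul, Subgroup.coe_inv, mul_smul, inv_smul_eq_iff]
    exact eq_comm
  · ext z
    constructor
    · rintro ⟨γ, rfl⟩
      exact ⟨⟨Phi Q γ, γ, rfl⟩, rfl⟩
    · rintro ⟨⟨_, γ, rfl⟩, rfl⟩
      exact ⟨γ, rfl⟩

lemma integral_coordinate [Fintype (Phi Q).range] (j : J) [TopologicalSpace (W j)]
    [MeasurableSpace (W j)] [BorelSpace (W j)]
    (y : ∀ j, Pt Q j) (f : (W j) →ᵇ ℝ) :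
    ∫ w, f w ∂(uniform (MulAction.orbit Γ (y j : (P j).Z)) (P j).pt) =
      (Fintype.card (Phi Q).range : ℝ)⁻¹ * ∑ θ : (Phi Q).range,
        f ((P j).pt ((((θ : ∀ j, Equiv.Perm (Pt Q j)) • y) j : Pt Q j) : (P j).Z)) := by
  classical
  rw [avg_eq (fun θ : (Phi Q).range =>
    ((((θ : ∀ j, Equiv.Perm (Pt Q j)) • y) j : Pt Q j) : (P j).Z))
    (((MulAction.stabilizer (Equiv.Perm (Pt Q j)) (y j)).comap
      (Pi.evalMonoidHom (fun j => Equiv.Perm (Pt Q j)) j)).subgroupOf (Phi Q).range)]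
  · intro s t
    rw [Subtype.val_injective.eq_iff, Subgroup.mem_subgroupOf, Subgroup.mem_comap,
      MulAction.mem_stabilizer_iff,
      Subgroup.coe_mul, Subgroup.coe_inv, map_mul, map_inv, mul_smul, inv_smul_eq_iff]
    exact eq_comm
  · ext z
    constructor
    · rintro ⟨γ, rfl⟩
      exact ⟨⟨Phi Q γ, γ, rfl⟩, rfl⟩
    · rintro ⟨⟨_, γ, rfl⟩, rfl⟩
      exact ⟨γ, rfl⟩

/-- The marginals of the Galois measure. -/
lemma marginal [Fintype J] [∀ j, TopologicalSpace (W j)]
    [∀ j, SecondCountableTopology (W j)] [∀ j, TopologicalSpace.PseudoMetrizableSpace (W j)]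
    [∀ j, MeasurableSpace (W j)] [∀ j, BorelSpace (W j)]
    (y : ∀ j, Pt Q j) (j : J) :
    (galoisMeasure P (val Q y)).map (fun w => w j)
      = uniform (MulAction.orbit Γ (y j : (P j).Z)) (P j).pt := by
  classical
  let _ : Fintype (Phi Q).range := Fintype.ofFinite _
  have hp : IsProbabilityMeasure (uniform (MulAction.orbit Γ (y j : (P j).Z)) (P j).pt) :=
    (lam (P j) (y j : (P j).Z)).2
  have hq : IsProbabilityMeasure ((galoisMeasure P (val Q y)).map (fun w => w j)) :=
    Measure.isProbabilityMeasure_map (measurable_pi_apply j).aemeasurable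
  refine ext_of_forall_integral_eq_of_IsFiniteMeasure fun f => ?_
  rw [integral_map (measurable_pi_apply j).aemeasurable
    f.continuous.measurable.aestronglyMeasurable, integral_coordinate Q j y]
  exact integral_galois Q y (f.compContinuous ⟨fun w => w j, continuous_apply j⟩)

end Pool.Agent.E8helper40.PK
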