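import Pool.Agent.E8helper40.PK.Galois

/-!
# Almost all tuples of points of packets have equidistributed Galois orbits
-/

set_option autoImplicit false

open Finset MeasureTheory Filter Topology
open scoped BoundedContinuousFunction ENNReal

namespace Pool.Agent.E8helper40.PK

open Pool.Agent.E8helper40.EQ Pool.Agent.E8helper40.AA

variable {G : Type} [Group G] {Γ : Subgroup G}

/-- The Galois orbits in a character-equidistributed sequence of packets are uniformly
equidistributed. -/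
lemma lam_uniform {Y : Type} [TopologicalSpace Y] [MeasurableSpace Y] [BorelSpace Y]
    {P : SpecialPoints Γ Y} (Q : ℕ → Packet P) (m : ProbabilityMeasure Y)
    (h : CharacterEquidistributed Q m) (f : Y →ᵇ ℝ) {ε : ℝ} (hε : 0 < ε) :
    ∀ᶠ i in atTop, ∀ x ∈ (Q i).S,
      |∫ y, f y ∂(lam P x : Measure Y) - ∫ y, f y ∂(m : Measure Y)| < ε := by
  classical
  filter_upwards [h f (ε / 2) (half_pos hε)] with i h1 x hx
  set I := ∫ y, f y ∂(m : Measure Y)
  let O : Finset P.Z := (P.orbit_finite x).toFinset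
  have hO : (O : Set P.Z) = MulAction.orbit Γ x := by simp [O]
  have hfin : ∀ z : P.Z, (MulAction.orbit (cm P z) z).Finite := by
    intro z
    refine (P.orbit_finite z).subset ?_
    rintro _ ⟨v, rfl⟩
    exact ⟨(v : Γ), rfl⟩
  let R : P.Z → Finset P.Z := fun z => (hfin z).toFinset
  have hR : ∀ z, (R z : Set P.Z) = MulAction.orbit (cm P z) z := fun z => by simp [R]
  have hmemR : ∀ z w, w ∈ R z ↔ w ∈ MulAction.orbit (cm P z) z := fun z w => by simp [R]
  have hmemO : ∀ w, w ∈ O ↔ w ∈ MulAction.orbit Γ x := fun w => by simp [O]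
  obtain ⟨y, hyO, hy⟩ := exists_block O ⟨x, by simp [O, MulAction.mem_orbit_self]⟩ R (by
      intro y hy z hz
      rw [hmemR] at hz
      rw [hmemO] at hy ⊢
      obtain ⟨σ, rfl⟩ := hz
      rw [← MulAction.orbit_eq_iff] at hy
      rw [← hy]
      exact ⟨(σ : Γ), rfl⟩) (by
      intro y _
      rw [hmemR]
      exact MulAction.mem_orbit_self y) (by
      intro y _ z hz
      rw [hmemR] at hz
      have hcm : cm P z = cm P y := by
        obtain ⟨σ, rfl⟩ := hz
        change (P.K ((σ : Γ) • y)).subgroupOf Γ = (P.K y).subgroupOf Γ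
        rw [P.K_smul]
      ext w
      rw [hmemR, hmemR, hcm, MulAction.orbit_eq_iff.2 hz]) (fun z => f (P.pt z)) I
  have hyS : y ∈ (Q i).S := by
    obtain ⟨γ, rfl⟩ := (hmemO y).1 hyO
    exact (Q i).stable γ x hx
  have h2 := h1 y hyS (fun _ => 1) ⟨1, fun _ => rfl⟩
  have h3 : ((lam P x : ProbabilityMeasure Y) : Measure Y) = uniform (O : Set P.Z) P.pt := by
    rw [hO]
    rfl
  rw [h3, integral_uniform]
  refine hy.trans_lt (lt_of_le_of_lt ?_ (half_lt_self hε))
  rw [← hR, finsum_mem_coe_finset, Set.ncard_coe_finset] at h2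
  simp only [one_mul] at h2
  rw [← Complex.ofReal_sum, Complex.norm_real, Real.norm_eq_abs, sum_sub_distrib, sum_const,
    nsmul_eq_mul] at h2
  have hpos : (0 : ℝ) < (R y).card := by
    have : 0 < (R y).card := Finset.card_pos.2 ⟨y, (hmemR y y).2 (MulAction.mem_orbit_self y)⟩
    exact_mod_cast this
  have h4 : ((R y).card : ℝ)⁻¹ * ∑ z ∈ R y, f (P.pt z) - I
      = ((R y).card : ℝ)⁻¹ * (∑ z ∈ R y, f (P.pt z) - (R y).card * I) := by
    field_simp
  rw [h4, abs_mul, abs_of_pos (inv_pos.2 hpos)]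
  calc ((R y).card : ℝ)⁻¹ * |∑ z ∈ R y, f (P.pt z) - (R y).card * I|
      ≤ ((R y).card : ℝ)⁻¹ * (ε / 2 * (R y).card) := by
        gcongr
    _ = ε / 2 := by
        field_simp

/-- The measures on the Galois orbits of the packets are in a neighbourhood of `m` for large `i`. -/
lemma lam_nhds {Y : Type} [TopologicalSpace Y] [MeasurableSpace Y] [BorelSpace Y]
    {P : SpecialPoints Γ Y} (Q : ℕ → Packet P) (m : ProbabilityMeasure Y)
    (h : CharacterEquidistributed Q m) (U : Set (ProbabilityMeasure Y)) (hU : U ∈ 𝓝 m) :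
    ∀ᶠ i in atTop, ∀ z ∈ (Q i).S, lam P z ∈ U := by
  classical
  by_contra hcon
  rw [not_eventually] at hcon
  let z : ℕ → P.Z := fun i => if h : ∃ z ∈ (Q i).S, lam P z ∉ U then h.choose
    else (Q i).nonempty.some
  have hz : ∀ i, z i ∈ (Q i).S := by
    intro i
    by_cases h : ∃ z ∈ (Q i).S, lam P z ∉ U
    · simp only [z, dif_pos h]
      exact h.choose_spec.1
    · simp only [z, dif_neg h]
      exact (Q i).nonempty.some_mem
  have hlim : Tendsto (fun i => lam P (z i)) atTop (𝓝 m) := by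
    rw [ProbabilityMeasure.tendsto_iff_forall_integral_tendsto]
    intro f
    rw [Metric.tendsto_atTop']
    intro ε hε
    obtain ⟨N, hN⟩ := eventually_atTop.1 (lam_uniform Q m h f hε)
    refine ⟨N, fun i hi => ?_⟩
    rw [Real.dist_eq]
    exact hN i hi.le (z i) (hz i)
  obtain ⟨i, hi1, hi2⟩ := (hcon.and_eventually (hlim.eventually hU)).exists
  push Not at hi1
  have h1 : z i = hi1.choose := by
    simp only [z, dif_pos hi1]
  rw [h1] at hi2
  exact hi1.choose_spec.2 hi2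

/-- The measures on the Galois orbits of the packets are tight. -/
lemma tight_packets {Y : Type} [TopologicalSpace Y] [PolishSpace Y] [MeasurableSpace Y]
    [BorelSpace Y] {P : SpecialPoints Γ Y} (Q : ℕ → Packet P) (m : ProbabilityMeasure Y)
    (h : CharacterEquidistributed Q m) (ε : ℝ≥0∞) (hε : 0 < ε) :
    ∃ K : Set Y, IsCompact K ∧ ∀ i, ∀ z ∈ (Q i).S,
      ((lam P z : ProbabilityMeasure Y) : Measure Y) Kᶜ ≤ ε := by
  let _ := TopologicalSpace.upgradeIsCompletelyMetrizable Y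
  set T : Set (ProbabilityMeasure Y) := {μ | ∃ i, ∃ z ∈ (Q i).S, μ = lam P z} with hT
  have h0 : IsCompact (insert m T) := by
    refine isCompact_of_finite_subcover fun {ι} U hUo hcov => ?_
    obtain ⟨i₀, hi₀⟩ := Set.mem_iUnion.1 (hcov (Set.mem_insert m T))
    obtain ⟨N, hN⟩ := eventually_atTop.1 (lam_nhds Q m h _ ((hUo i₀).mem_nhds hi₀))
    have hfin : (⋃ i ∈ Finset.range N, (lam P) '' (Q i).S).Finite :=
      Set.Finite.biUnion (Finset.finite_toSet _) fun i _ => (Q i).finite.image _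
    obtain ⟨t, ht⟩ := hfin.isCompact.elim_finite_subcover U hUo (by
      refine Set.Subset.trans ?_ hcov
      intro μ hμ
      obtain ⟨i, -, z, hz, rfl⟩ := Set.mem_iUnion₂.1 hμ
      exact Set.mem_insert_of_mem _ ⟨i, z, hz, rfl⟩)
    classical
    refine ⟨insert i₀ t, ?_⟩
    intro μ hμ
    rw [Set.mem_iUnion₂]
    rcases Set.mem_insert_iff.1 hμ with rfl | ⟨i, z, hz, rfl⟩
    · exact ⟨i₀, Finset.mem_insert_self _ _, hi₀⟩
    · rcases lt_or_ge i N with hi | hi
      · obtain ⟨k, hk, hk2⟩ := Set.mem_iUnion₂.1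
          (ht (Set.mem_iUnion₂.2 ⟨i, Finset.mem_range.2 hi, z, hz, rfl⟩))
        exact ⟨k, Finset.mem_insert_of_mem hk, hk2⟩
      · exact ⟨i₀, Finset.mem_insert_self _ _, hN i hi z hz⟩
  have h1 : IsCompact (closure T) := h0.closure_of_subset (Set.subset_insert _ _)
  have h2 := isTightMeasureSet_of_isCompact_closure h1
  rw [isTightMeasureSet_iff_exists_isCompact_measure_compl_le] at h2
  obtain ⟨K, hK, hK2⟩ := h2 ε hε
  exact ⟨K, hK, fun i z hz => hK2 _ ⟨lam P z, ⟨i, z, hz, rfl⟩, rfl⟩⟩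

variable {J : Type} [Fintype J] {W : J → Type}

variable {P : ∀ j, SpecialPoints Γ (W j)}

/-- Chebyshev: the proportion of the tuples of conjugates whose Galois orbits have large deviation
for a product of functions tends to zero. -/
lemma bad_fn [DecidableEq J] [∀ j, TopologicalSpace (W j)]
    [∀ j, SecondCountableTopology (W j)]
    [∀ j, MeasurableSpace (W j)] [∀ j, BorelSpace (W j)]
    (m : ∀ j, ProbabilityMeasure (W j)) (c : ℕ) (Q : ℕ → ∀ j, Packet (P j))
    (hK : ∀ i j, ∀ z ∈ (Q i j).S, ((P j).K z).index ≠ 0 ∧ ((P j).K z).index ≤ c)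
    (heq : ∀ j, CharacterEquidistributed (fun i => Q i j) (m j))
    (f : ∀ j, (W j) →ᵇ ℝ) {ε η : ℝ} (hε : 0 < ε) (hη : 0 < η) :
    ∀ᶠ i in atTop, ((univ.filter fun y : ∀ j, Pt (Q i) j =>
      ε ≤ |∫ w, prodFn f w ∂(galoisMeasure P (val (Q i) y))
        - ∏ j, ∫ w, f j w ∂(m j : Measure (W j))|).card : ℝ)
      ≤ η * Fintype.card (∀ j, Pt (Q i) j) := by
  set M : ℝ := ∑ j, ‖f j‖ with hMdef
  have hM0 : 0 ≤ M := sum_nonneg fun j _ => norm_nonneg _
  have hfM : ∀ j, ‖f j‖ ≤ M := fun j => single_le_sum (f := fun j => ‖f j‖)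
    (fun j _ => norm_nonneg _) (mem_univ j)
  set b : ℕ := c ^ Fintype.card J
  set A : ℝ := cst M (Fintype.card J) * (Real.sqrt b * (2 * M)) with hAdef
  have hA : 0 ≤ A := mul_nonneg (cst_nonneg _ _) (by positivity)
  set δ : ℝ := η * ε ^ 2 / (A + 1) with hδdef
  have hδ : 0 < δ := by positivity
  have hAδ : A * δ ≤ η * ε ^ 2 := by
    rw [hδdef, mul_div_assoc', div_le_iff₀ (by positivity)]
    have : 0 ≤ η * ε ^ 2 := by positivity
    nlinarith
  have hev : ∀ᶠ i in atTop, ∀ j, Small (Q i) δ j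
      (fun z => f j ((P j).pt z) - ∫ w, f j w ∂(m j : Measure (W j))) :=
    eventually_all.2 fun j => heq j (f j) δ hδ
  filter_upwards [hev] with i hi
  classical
  let _ : Fintype (Phi (Q i)).range := Fintype.ofFinite _
  obtain ⟨hb0, hb⟩ := Delta_index (Q i) c (hK i)
  have h1 := moment (Q i) (fun j z => f j ((P j).pt z))
    (fun j => ∫ w, f j w ∂(m j : Measure (W j))) hδ.le
    (fun j z => ((f j).norm_coe_le_norm _).trans (hfM j)) (fun j => by
      refine le_trans ?_ (hfM j)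
      have h2 := (f j).norm_integral_le_norm (m j : Measure (W j))
      exact h2) b hb0 hb hi
  have h2 : ∀ y : ∀ j, Pt (Q i) j, (Fintype.card (Phi (Q i)).range : ℝ)⁻¹ *
        ∑ θ : (Phi (Q i)).range,
          ∏ j, f j ((P j).pt ((((θ : ∀ j, Equiv.Perm (Pt (Q i) j)) • y) j : Pt (Q i) j)
            : (P j).Z))
      = ∫ w, prodFn f w ∂(galoisMeasure P (val (Q i) y)) := by
    intro y
    rw [integral_galois (Q i) y (prodFn f)]
    simp only [prodFn_apply]
  simp only [h2] at h1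
  set D : (∀ j, Pt (Q i) j) → ℝ := fun y =>
    ∫ w, prodFn f w ∂(galoisMeasure P (val (Q i) y)) - ∏ j, ∫ w, f j w ∂(m j : Measure (W j))
  set S := univ.filter fun y : ∀ j, Pt (Q i) j => ε ≤ |D y|
  have h3 : (S.card : ℝ) * ε ^ 2 ≤ ∑ y, D y ^ 2 := by
    calc (S.card : ℝ) * ε ^ 2 = ∑ _y ∈ S, ε ^ 2 := by simp
      _ ≤ ∑ y ∈ S, D y ^ 2 := by
        refine sum_le_sum fun y hy => ?_
        rw [← sq_abs (D y)]
        exact pow_le_pow_left₀ hε.le (mem_filter.1 hy).2 2
      _ ≤ ∑ y, D y ^ 2 := sum_le_sum_of_subset_of_nonneg (subset_univ _)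
        fun y _ _ => sq_nonneg _
  have h4 : (S.card : ℝ) * ε ^ 2 ≤ (η * Fintype.card (∀ j, Pt (Q i) j)) * ε ^ 2 := by
    refine h3.trans (h1.trans ?_)
    calc cst M (Fintype.card J) * (Real.sqrt b * δ * (2 * M)) * Fintype.card (∀ j, Pt (Q i) j)
        = A * δ * Fintype.card (∀ j, Pt (Q i) j) := by
          rw [hAdef]
          ring
      _ ≤ η * ε ^ 2 * Fintype.card (∀ j, Pt (Q i) j) := by
          gcongr
      _ = _ := by ring
  exact le_of_mul_le_mul_right h4 (by positivity)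

/-- Joint tightness. -/
lemma tight_joint [∀ j, TopologicalSpace (W j)] [∀ j, PolishSpace (W j)]
    [∀ j, MeasurableSpace (W j)] [∀ j, BorelSpace (W j)]
    (m : ∀ j, ProbabilityMeasure (W j)) (Q : ℕ → ∀ j, Packet (P j))
    (heq : ∀ j, CharacterEquidistributed (fun i => Q i j) (m j)) :
    IsTightMeasureSet {((μ : ProbabilityMeasure (∀ j, W j)) : Measure (∀ j, W j)) |
      μ ∈ {μ | ∃ i, ∃ y : ∀ j, Pt (Q i) j, μ = nu P (val (Q i) y)}} := by
  rw [isTightMeasureSet_iff_exists_isCompact_measure_compl_le]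
  intro ε hε
  set ε' : ℝ≥0∞ := ε / (Fintype.card J + 1) with hε'
  have hε'0 : 0 < ε' := ENNReal.div_pos hε.ne' (by simp)
  have h1 : ∀ j, ∃ K : Set (W j), IsCompact K ∧ ∀ i, ∀ z ∈ (Q i j).S,
      ((lam (P j) z : ProbabilityMeasure (W j)) : Measure (W j)) Kᶜ ≤ ε' := fun j =>
    tight_packets (fun i => Q i j) (m j) (heq j) ε' hε'0
  choose K hK hKε using h1
  refine ⟨Set.univ.pi K, isCompact_univ_pi hK, ?_⟩
  rintro _ ⟨_, ⟨i, y, rfl⟩, rfl⟩
  have h2 : (Set.univ.pi K)ᶜ ⊆ ⋃ j, (fun w : ∀ j, W j => w j) ⁻¹' (K j)ᶜ := by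
    intro w hw
    rw [Set.mem_compl_iff, Set.mem_univ_pi, not_forall] at hw
    obtain ⟨j, hj⟩ := hw
    exact Set.mem_iUnion.2 ⟨j, hj⟩
  change galoisMeasure P (val (Q i) y) (Set.univ.pi K)ᶜ ≤ ε
  refine (measure_mono h2).trans ((measure_iUnion_fintype_le _ _).trans ?_)
  have h3 : ∀ j, galoisMeasure P (val (Q i) y) ((fun w : ∀ j, W j => w j) ⁻¹' (K j)ᶜ) ≤ ε' := by
    intro j
    rw [← Measure.map_apply (measurable_pi_apply j) (hK j).measurableSet.compl,
      marginal (Q i) y j]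
    exact hKε j i (y j) (y j).2
  calc ∑ j, galoisMeasure P (val (Q i) y) ((fun w : ∀ j, W j => w j) ⁻¹' (K j)ᶜ)
      ≤ ∑ _j : J, ε' := sum_le_sum fun j _ => h3 j
    _ = Fintype.card J * ε' := by simp
    _ ≤ (Fintype.card J + 1) * ε' := by
        gcongr
        exact le_self_add
    _ ≤ ε := ENNReal.mul_div_le

open Classical in
/-- The proportion of the tuples of conjugates whose Galois measures are outside a neighbourhood
of the product measure tends to zero. -/
lemma bad_nhds [∀ j, TopologicalSpace (W j)] [∀ j, PolishSpace (W j)]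
    [∀ j, MeasurableSpace (W j)] [∀ j, BorelSpace (W j)]
    (m : ∀ j, ProbabilityMeasure (W j)) (c : ℕ) (Q : ℕ → ∀ j, Packet (P j))
    (hK : ∀ i j, ∀ z ∈ (Q i j).S, ((P j).K z).index ≠ 0 ∧ ((P j).K z).index ≤ c)
    (heq : ∀ j, CharacterEquidistributed (fun i => Q i j) (m j))
    (U : Set (ProbabilityMeasure (∀ j, W j))) (hU : IsOpen U) (hmU : ProbabilityMeasure.pi m ∈ U)
    {η : ℝ} (hη : 0 < η) :
    ∀ᶠ i in atTop, ((univ.filter fun y : ∀ j, Pt (Q i) j =>
      nu P (val (Q i) y) ∉ U).card : ℝ) ≤ η * Fintype.card (∀ j, Pt (Q i) j) := by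
  set S : Set (ProbabilityMeasure (∀ j, W j)) :=
    {μ | ∃ i, ∃ y : ∀ j, Pt (Q i) j, μ = nu P (val (Q i) y)}
  have hcomp : IsCompact (closure S ∩ Uᶜ) :=
    (isCompact_closure_of_isTightMeasureSet (tight_joint m Q heq)).inter_right
      hU.isClosed_compl
  have hpi : ∀ f : ∀ j, (W j) →ᵇ ℝ,
      ∫ w, prodFn f w ∂((ProbabilityMeasure.pi m : ProbabilityMeasure (∀ j, W j)) :
        Measure (∀ j, W j)) = ∏ j, ∫ w, f j w ∂(m j : Measure (W j)) := by
    intro f
    rw [ProbabilityMeasure.toMeasure_pi]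
    simp only [prodFn_apply]
    exact integral_fintype_prod_eq_prod (fun j => (f j : W j → ℝ))
  have hloc : ∀ μ ∈ closure S ∩ Uᶜ, ∃ f : ∀ j, (W j) →ᵇ ℝ, ∃ ε : ℝ, 0 < ε ∧
      ε < |∫ w, prodFn f w ∂(μ : Measure (∀ j, W j)) - ∏ j, ∫ w, f j w ∂(m j : Measure (W j))| := by
    intro μ hμ
    have hne : (μ : Measure (∀ j, W j))
        ≠ ((ProbabilityMeasure.pi m : ProbabilityMeasure (∀ j, W j)) : Measure (∀ j, W j)) := by
      intro h
      have : μ = ProbabilityMeasure.pi m := Subtype.ext h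
      exact hμ.2 (this ▸ hmU)
    by_contra hcon
    push Not at hcon
    refine hne (ext_prod fun f => ?_)
    have h1 : |∫ w, prodFn f w ∂(μ : Measure (∀ j, W j))
        - ∏ j, ∫ w, f j w ∂(m j : Measure (W j))| ≤ 0 := by
      by_contra h
      push Not at h
      have := hcon f _ (half_pos h)
      linarith
    have h2 := sub_eq_zero.1 (abs_nonpos_iff.1 h1)
    rw [← hpi f] at h2
    simpa only [prodFn_apply] using h2
  choose! f ε hε hf using hloc
  have hopen : ∀ μ ∈ closure S ∩ Uᶜ, {ν : ProbabilityMeasure (∀ j, W j) |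
      ε μ < |∫ w, prodFn (f μ) w ∂(ν : Measure (∀ j, W j))
        - ∏ j, ∫ w, f μ j w ∂(m j : Measure (W j))|} ∈ 𝓝 μ := by
    intro μ hμ
    have hcont : Continuous fun ν : ProbabilityMeasure (∀ j, W j) =>
        |∫ w, prodFn (f μ) w ∂(ν : Measure (∀ j, W j))
          - ∏ j, ∫ w, f μ j w ∂(m j : Measure (W j))| := by
      refine (Continuous.sub ?_ continuous_const).abs
      rw [continuous_iff_continuousAt]
      intro ν
      exact (ProbabilityMeasure.tendsto_iff_forall_integral_tendsto.1 tendsto_id) (prodFn (f μ))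
    exact (isOpen_lt continuous_const hcont).mem_nhds (hf μ hμ)
  obtain ⟨t, htS⟩ := hcomp.elim_nhds_subcover' (fun μ hμ => _) hopen
  have hev : ∀ᶠ i in atTop, ∀ μ ∈ t, ((univ.filter fun y : ∀ j, Pt (Q i) j =>
      ε μ ≤ |∫ w, prodFn (f μ) w ∂(galoisMeasure P (val (Q i) y))
        - ∏ j, ∫ w, f μ j w ∂(m j : Measure (W j))|).card : ℝ)
      ≤ η / (t.card + 1) * Fintype.card (∀ j, Pt (Q i) j) := by
    rw [eventually_all_finset]
    intro μ _
    exact bad_fn m c Q hK heq (f μ) (hε μ μ.2) (by positivity)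
  filter_upwards [hev] with i hi
  have hsub : (univ.filter fun y : ∀ j, Pt (Q i) j => nu P (val (Q i) y) ∉ U) ⊆
      t.biUnion fun μ => univ.filter fun y : ∀ j, Pt (Q i) j =>
      ε μ ≤ |∫ w, prodFn (f μ) w ∂(galoisMeasure P (val (Q i) y))
        - ∏ j, ∫ w, f μ j w ∂(m j : Measure (W j))| := by
    intro y hy
    rw [mem_filter] at hy
    have h1 : nu P (val (Q i) y) ∈ closure S ∩ Uᶜ := ⟨subset_closure ⟨i, y, rfl⟩, hy.2⟩
    obtain ⟨μ, hμt, hμ⟩ := Set.mem_iUnion₂.1 (htS h1)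
    rw [mem_biUnion]
    exact ⟨μ, hμt, mem_filter.2 ⟨mem_univ _, le_of_lt hμ⟩⟩
  have hN : (0 : ℝ) ≤ Fintype.card (∀ j, Pt (Q i) j) := Nat.cast_nonneg _
  calc ((univ.filter fun y : ∀ j, Pt (Q i) j => nu P (val (Q i) y) ∉ U).card : ℝ)
      ≤ ∑ μ ∈ t, ((univ.filter fun y : ∀ j, Pt (Q i) j =>
      ε μ ≤ |∫ w, prodFn (f μ) w ∂(galoisMeasure P (val (Q i) y))
        - ∏ j, ∫ w, f μ j w ∂(m j : Measure (W j))|).card : ℝ) := by
        exact_mod_cast (card_le_card hsub).trans card_biUnion_le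
    _ ≤ ∑ _μ ∈ t, η / (t.card + 1) * Fintype.card (∀ j, Pt (Q i) j) := sum_le_sum hi
    _ = (t.card / (t.card + 1)) * (η * Fintype.card (∀ j, Pt (Q i) j)) := by
        rw [sum_const, nsmul_eq_mul]
        ring
    _ ≤ 1 * (η * Fintype.card (∀ j, Pt (Q i) j)) := by
        gcongr
        rw [div_le_one (by positivity)]
        linarith
    _ = _ := one_mul _

end Pool.Agent.E8helper40.PK
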