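import Pool.Agent.E8helper40.LG.Chain

/-!
# Packets of special points
-/

set_option autoImplicit false

open Finset MeasureTheory
open scoped BoundedContinuousFunction

namespace Pool.Agent.E8helper40.PK

open Pool.Agent.E8helper40.EQ Pool.Agent.E8helper40.AA

variable {G : Type} [Group G] {Γ : Subgroup G} {Y : Type}

/-- A packet: a non-empty finite set of special points, stable under the Galois group, with the same
CM field and the same class field. -/
structure Packet (P : SpecialPoints Γ Y) where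
  S : Set P.Z
  finite : S.Finite
  nonempty : S.Nonempty
  stable : ∀ γ : Γ, ∀ z ∈ S, γ • z ∈ S
  K_eq : ∀ z ∈ S, ∀ z' ∈ S, P.K z = P.K z'
  N_eq : ∀ z ∈ S, ∀ z' ∈ S, P.N z = P.N z'

/-- The sequence of packets is character-equidistributed with respect to `m`: for the points `z` of
the packets the averages over the orbit of `z` under `cm P z` of the functions `f - ∫ f dm`, twisted
by arbitrary characters, tend to zero uniformly. -/
def CharacterEquidistributed [TopologicalSpace Y] [MeasurableSpace Y]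
    {P : SpecialPoints Γ Y} (Q : ℕ → Packet P) (m : ProbabilityMeasure Y) : Prop :=
  ∀ (f : Y →ᵇ ℝ) (ε : ℝ), 0 < ε → ∀ᶠ i in Filter.atTop, ∀ z ∈ (Q i).S,
    ∀ u : P.Z → ℂ, IsTwist P z u →
      ‖∑ᶠ w ∈ MulAction.orbit (cm P z) z, u w * ((f (P.pt w) - ∫ y, f y ∂(m : Measure Y) : ℝ) : ℂ)‖
        ≤ ε * (MulAction.orbit (cm P z) z).ncard

variable {J : Type} {W : J → Type}

/-- The tuples of points of the packets. -/
def tuples {P : ∀ j, SpecialPoints Γ (W j)} (Q : ∀ j, Packet (P j)) : Set (∀ j, (P j).Z) :=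
  {y | ∀ j, y j ∈ (Q j).S}

section

variable {P : ∀ j, SpecialPoints Γ (W j)} (Q : ∀ j, Packet (P j))

/-- the points of the packet of the coordinate `j` -/
abbrev Pt (j : J) : Type := (Q j).S

instance (j : J) : MulAction Γ (Pt Q j) where
  smul γ z := ⟨γ • (z : (P j).Z), (Q j).stable γ z z.2⟩
  one_smul z := Subtype.ext (one_smul Γ (z : (P j).Z))
  mul_smul a b z := Subtype.ext (mul_smul a b (z : (P j).Z))

/-- the tuple -/
def val (y : ∀ j, Pt Q j) : ∀ j, (P j).Z := fun j => (y j : (P j).Z)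

lemma val_injective : Function.Injective (val Q) := fun _ _ h =>
  funext fun j => Subtype.ext (congrFun h j)

lemma range_val : Set.range (val Q) = tuples Q := by
  ext y
  constructor
  · rintro ⟨y, rfl⟩ j
    exact (y j).2
  · intro h
    exact ⟨fun j => ⟨y j, h j⟩, rfl⟩

/-- the action on the packet -/
noncomputable def phi (j : J) : Γ →* Equiv.Perm (Pt Q j) := MulAction.toPermHom Γ (Pt Q j)

lemma phi_apply (j : J) (γ : Γ) (y : Pt Q j) : ((phi Q j γ y : Pt Q j) : (P j).Z)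
    = γ • (y : (P j).Z) := rfl

/-- the group of the CM field -/
noncomputable def CM (j : J) : Subgroup Γ := cm (P j) (Q j).nonempty.some

lemma cm_eq (j : J) (y : Pt Q j) : cm (P j) (y : (P j).Z) = CM Q j := by
  rw [CM, cm, cm, (Q j).K_eq y y.2 _ (Q j).nonempty.some_mem]

/-- the abelian group of the coordinate `j` -/
noncomputable def Ab (j : J) : Subgroup (Equiv.Perm (Pt Q j)) :=
  (CM Q j).map (phi Q j)

lemma Ab_comm (j : J) : ∀ a ∈ Ab Q j, ∀ b ∈ Ab Q j, a * b = b * a := by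
  rintro _ ⟨σ, hσ, rfl⟩ _ ⟨τ, hτ, rfl⟩
  apply Equiv.ext
  intro w
  apply Subtype.ext
  rw [← map_mul, ← map_mul, phi_apply, phi_apply]
  have h1 := (P j).comm _ σ (Subgroup.mem_subgroupOf.1 hσ) τ (Subgroup.mem_subgroupOf.1 hτ)
  have h2 := (P j).fixed (σ * τ * σ⁻¹ * τ⁻¹) ((τ * σ) • (w : (P j).Z)) (by
    rw [(P j).N_smul, (Q j).N_eq w w.2 _ (Q j).nonempty.some_mem]
    exact h1)
  rw [smul_smul] at h2
  rw [← h2]
  congr 1
  group

/-- the hypothesis on the sums with characters, for one packet -/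
def Small (δ : ℝ) (j : J) (g : (P j).Z → ℝ) : Prop :=
  ∀ z ∈ (Q j).S, ∀ u : (P j).Z → ℂ, IsTwist (P j) z u →
    ‖∑ᶠ w ∈ MulAction.orbit (cm (P j) z) z, u w * (g w : ℂ)‖
      ≤ δ * (MulAction.orbit (cm (P j) z) z).ncard

lemma orbit_eq (j : J) (y : Pt Q j) :
    Subtype.val '' (Set.range fun a : Ab Q j => (a : Equiv.Perm (Pt Q j)) y)
      = MulAction.orbit (cm (P j) (y : (P j).Z)) (y : (P j).Z) := by
  have hcm := cm_eq Q j y
  ext w
  constructor
  · rintro ⟨_, ⟨⟨_, σ, hσ, rfl⟩, rfl⟩, rfl⟩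
    rw [← hcm] at hσ
    exact ⟨⟨σ, hσ⟩, rfl⟩
  · rintro ⟨⟨σ, hσ⟩, rfl⟩
    rw [hcm] at hσ
    exact ⟨_, ⟨⟨phi Q j σ, ⟨σ, hσ, rfl⟩⟩, rfl⟩, rfl⟩

lemma small_sum {δ : ℝ} (hδ : 0 ≤ δ) (j : J) (g : (P j).Z → ℝ) (h : Small Q δ j g)
    (y : Pt Q j) (χ : Ab Q j →* ℂ) :
    ‖∑ᶠ a : Ab Q j, χ a * ((g (((a : Equiv.Perm (Pt Q j)) y : Pt Q j) : (P j).Z) : ℝ) : ℂ)‖
      ≤ δ * Nat.card (Ab Q j) := by
  classical
  have : Fintype (Pt Q j) := (Q j).finite.fintype
  refine twist_sum (Ab Q j) y χ (fun w => (g (w : (P j).Z) : ℂ)) hδ ?_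
  intro u hu
  have hcm := cm_eq Q j y
  let u' : (P j).Z → ℂ := fun w => if hw : w ∈ (Q j).S then u ⟨w, hw⟩ else 0
  have hu' : ∀ w : Pt Q j, u' (w : (P j).Z) = u w := fun w => by
    simp only [u', dif_pos w.2]
  let ψ : cm (P j) (y : (P j).Z) →* Ab Q j :=
    { toFun := fun σ => ⟨phi Q j σ, ⟨σ, by
        change (σ : Γ) ∈ CM Q j
        rw [← hcm]
        exact σ.2, rfl⟩⟩
      map_one' := Subtype.ext (by simp)
      map_mul' := fun a b => Subtype.ext (by simp) }
  have h1 := h (y : (P j).Z) y.2 u' ⟨χ.comp ψ, fun σ => by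
    have h2 : ((σ : Γ) • (y : (P j).Z)) = ((phi Q j (σ : Γ) y : Pt Q j) : (P j).Z) := rfl
    have h3 : (σ • (y : (P j).Z)) = ((σ : Γ) • (y : (P j).Z)) := rfl
    rw [h3, h2, hu', MonoidHom.comp_apply, ← hu (ψ σ)]
    rfl⟩
  rw [← orbit_eq Q j y, Set.ncard_image_of_injective _ Subtype.val_injective,
    finsum_mem_image Subtype.val_injective.injOn] at h1
  simp only [hu'] at h1
  exact h1

end

end Pool.Agent.E8helper40.PK
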